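import Pool.Agent.Work.MP_e9e200_al.UP.Main

/-!
# Bieri's conjecture on the invariants `Σ^m` of metabelian groups: the homological equality

For every `m ≥ 1` and every metabelian group `G` of type `FP_m` the complement of the homological
invariant `Σ^m(G, ℤ)` is the set `conv_{≤m} (Σ^1(G, ℤ)^c)`.
-/

set_option autoImplicit false

namespace Pool.Agent.Results.MP_e9e200_al.HomologicalEquality

open Pool.Agent.Work.MP_e9e200_al

/-- Let `m ≥ 1` and let `G` be a finitely generated metabelian group of type `FP_m`.  Then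
`Σ^m(G, ℤ)^c = conv_{≤m} (Σ^1(G, ℤ)^c)`. -/
theorem result (m : ℕ) (hm : 1 ≤ m) (G : Type) [Group G] [Group.FG G] (hG : Metab G)
    (hfp : GroupFP G m) : SigC G m = ConvLE G m (SigC G 1) :=
  UP.sigma_eq m hm G hG hfp

end Pool.Agent.Results.MP_e9e200_al.HomologicalEquality
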