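import Pool.Agent.Work.MP_e9e200_al.Bd.B05
import Pool.Agent.Work.MP_e9e200_al.Bd.B04
import Pool.Agent.Work.MP_e9e200_al.Bd.B08
import Pool.Agent.Work.MP_e9e200_al.Bd.B18
import Pool.Agent.Work.MP_e9e200_al.Bd.B22
import Pool.Agent.Work.MP_e9e200_al.Bd.B11

/-!
# Bieri's conjecture on the invariants `Σ^m` of metabelian groups: the local theorem

Let `G` be a metabelian group of type `FP_m`.  For a prime `p` let `PSet G p` be the set of all
characters `χ ≠ 0` such that `ℤ_(p) ⊗ G'` is not finitely generated over `ℤ_(p) G_χ`.  Then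
`Σ^1(G, ℤ)^c` is the union of the sets `PSet G p`, and a nonzero character in the convex hull of
`m` characters, all of which, with at most one exception, lie in the cone over `PSet G p` for one
prime `p`, and the exceptional one lies in the cone over `Σ^1(G, ℤ)^c`, is an element of
`Σ^m(G, ℤ)^c`.  In particular `conv_{≤m} (Σ^1(G, ℤ)^c) ⊆ Σ^m(G, ℤ)^c` if the exponent of `G'` is a
prime power.
-/

set_option autoImplicit false

namespace Pool.Agent.Work.MP_e9e200_al.Old.LocalConvex

open Pool.Agent.Work.MP_e9e200_al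

/-- Let `m ≥ 1` and let `G` be a metabelian group of type `FP_m`.

1. For every prime `p`, every nonzero vector in the convex hull of an `m`-element set `s` of
characters such that all elements of `s`, with at most one exception, lie in the cone over
`PSet G p`, and the exceptional one (if any) lies in the cone over `Σ^1(G, ℤ)^c`, is an element of
`Σ^m(G, ℤ)^c`.

2. `Σ^1(G, ℤ)^c` is the union of the sets `PSet G p`, `p` prime.

3. If `a ^ (p ^ r) = 1` for all `a ∈ G'`, then every nonzero vector in the convex hull of an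
`m`-element subset of the cone over `Σ^1(G, ℤ)^c` lies in `Σ^m(G, ℤ)^c`. -/
theorem result (m : ℕ) (hm : 1 ≤ m) (G : Type) [Group G] [Group.FG G] (hmet : Metab G)
    (hfp : GroupFP G m) :
    (∀ p : ℕ, p.Prime → ConvMix G m (PSet G p) (SigC G 1) ⊆ SigC G m) ∧
    (∀ χ : Additive G →+ ℝ, χ ∈ SigC G 1 ↔ ∃ p : ℕ, p.Prime ∧ χ ∈ PSet G p) ∧
    (∀ p r : ℕ, p.Prime → (∀ a ∈ commutator G, a ^ (p ^ r) = 1) →
      ConvLE G m (SigC G 1) ⊆ SigC G m) :=
  have hQ : StQuot3 := I_Quot3 I_NC
  have hS : StSumLoc := I_SumLoc (I_Core3 I_Unsh I_Twist I_Twist2 I_Kos) (I_Yg I_NC) hQ I_Phi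
    I_Sign
  have hSig : StSig1 := I_Sig1 I_Build
  have hL : StLoc := I_Loc hS I_Mono I_Car hSig
  ⟨fun p hp => hL m G hm hmet hfp p hp, I_Sig1Loc hS (I_Prime hQ) hSig G hmet,
    I_LocExp hL hSig m G hm hmet hfp⟩

end Pool.Agent.Work.MP_e9e200_al.Old.LocalConvex
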