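import Pool.Agent.Work.MP_e9e200_al.Bd.B05
import Pool.Agent.Work.MP_e9e200_al.Bd.B04
import Pool.Agent.Work.MP_e9e200_al.Bd.B08
import Pool.Agent.Work.MP_e9e200_al.Bd.B18
import Pool.Agent.Work.MP_e9e200_al.SP.Sq
import Pool.Agent.Work.MP_e9e200_al.SP.Cmp
import Pool.Agent.Work.MP_e9e200_al.SP.LiftA
import Pool.Agent.Work.MP_e9e200_al.SP.Null
import Pool.Agent.Work.MP_e9e200_al.SP.Ext
import Pool.Agent.Work.MP_e9e200_al.SP.WW
import Pool.Agent.Work.MP_e9e200_al.SP.Rec
import Pool.Agent.Work.MP_e9e200_al.SP.Kap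
import Pool.Agent.Work.MP_e9e200_al.SP.SysFP
import Pool.Agent.Work.MP_e9e200_al.SP.Acy
import Pool.Agent.Work.MP_e9e200_al.SP.Eta
import Pool.Agent.Work.MP_e9e200_al.SP.Box
import Pool.Agent.Work.MP_e9e200_al.SP.Pr
import Pool.Agent.Work.MP_e9e200_al.SP.ShiftB
import Pool.Agent.Work.MP_e9e200_al.SP.Adj
import Pool.Agent.Work.MP_e9e200_al.SP.Pos
import Pool.Agent.Work.MP_e9e200_al.SP.SysT
import Pool.Agent.Work.MP_e9e200_al.SP.Cut
import Pool.Agent.Work.MP_e9e200_al.SP.Step
import Pool.Agent.Work.MP_e9e200_al.SP.Ev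
import Pool.Agent.Work.MP_e9e200_al.SP.Comb
import Pool.Agent.Work.MP_e9e200_al.SP.FQ
import Pool.Agent.Work.MP_e9e200_al.SP.Chr
import Pool.Agent.Work.MP_e9e200_al.SP.Fin
import Pool.Agent.Work.MP_e9e200_al.SP.One
import Pool.Agent.Work.MP_e9e200_al.SP.Data
import Pool.Agent.Work.MP_e9e200_al.SP.Ts
import Pool.Agent.Work.MP_e9e200_al.SP.Van
import Pool.Agent.Work.MP_e9e200_al.SP.Sum
import Pool.Agent.Work.MP_e9e200_al.SP.Main

/-!
# Bieri's conjecture on the invariants `Σ^m` of metabelian groups: split extensions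

Let `G` be a finitely generated group with abelian subgroups `A ⊇ [G, G]` and `B` such that `A B`
has finite index in `G` (for example a split extension of an abelian group by an abelian group).
For every `m ≥ 1`, every nonzero character in the convex hull of `m` characters which are positive
multiples of integer valued characters in `Σ^1(G, ℤ)^c` is an element of `Σ^m(G, ℤ)^c`.  Any
residue characteristics may be mixed, there is no assumption on the Krull dimension of `A`, and
`G` is not assumed to be of type `FP_m`.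
-/

set_option autoImplicit false

namespace Pool.Agent.Work.MP_e9e200_al.Old.SplitConvex

open Pool.Agent.Work.MP_e9e200_al Pool.Agent.Work.MP_e9e200_al.SP

/-- Let `m ≥ 1`, let `G` be a finitely generated group and let `A`, `B` be abelian subgroups of
`G` such that `A` contains the derived group and `A ⊔ B` has finite index.  Then every nonzero
vector in the convex hull of an `m`-element set of positive multiples of integer valued characters
in `Σ^1(G, ℤ)^c` lies in `Σ^m(G, ℤ)^c`. -/
theorem result (m : ℕ) (hm : 1 ≤ m) (G : Type) [Group G] [Group.FG G] (A B : Subgroup G)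
    (hA : ∀ a ∈ A, ∀ b ∈ A, a * b = b * a) (hGA : commutator G ≤ A)
    (hB : ∀ a ∈ B, ∀ b ∈ B, a * b = b * a) (hAB : (A ⊔ B).FiniteIndex) :
    ConvLE G m {χ | χ ∈ SigC G 1 ∧ ∀ g, ∃ z : ℤ, χ g = z} ⊆ SigC G m :=
  have hNull : StNull := I_Null I_LiftA
  have hWW : StWW := I_WW hNull I_Ext
  have hRec : StRec := I_Rec I_Twist
  have hKap : StKap := I_Kap I_Sq I_Cmp
  have hFP : StSysFP := I_SysFP hRec hWW hKap I_Cmp
  have hEta : StEta := I_Eta I_Acy
  have hShift : StShiftB := I_ShiftB I_Box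
  have hCut : StCut := I_Cut I_Cmp I_Pos
  have hStep : StStep := I_Step I_Cmp I_Pos hCut I_Box I_Pr hShift I_Adj
  have hEv : StEv := I_Ev hStep (I_SysT I_Sq)
  have hComb : StComb := I_Comb hEta hEv I_Adj hCut I_Pos I_Cmp I_Box I_Pr hShift
  have hSig : StSig1 := I_Sig1 I_Build
  have hFin : StFin := I_Fin I_FQ
  have hOne : StOne := I_One hFin (I_Yg I_NC) (I_Quot3 I_NC) hSig I_Chr
  have hData : StData := I_Data hOne I_Pos
  have hSum : StSumSP := I_SumSP hData hFP hComb
  I_MainSP hSum I_Ts (I_Van I_NC hSig) I_Car I_Mono m G hm A B hA hGA hB hAB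

end Pool.Agent.Work.MP_e9e200_al.Old.SplitConvex
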